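import Mathlib

/-!
# Complete-intersection dual generators in kernels of failing Lefschetz maps: a disproof

`R = K[x_0,…,x_{n-1}]` acts on `S = K[y_0,…,y_{n-1}]` by differentiation.  Both rings are
represented by `MvPolynomial (Fin n) K`.
-/

namespace Pool.Agent.Results.MP_2332b0_al.Disproof

open MvPolynomial

variable {K : Type*} [Field K] {n : ℕ}

/-- The operator `∂/∂y_i` on `S`, as a `K`-linear endomorphism. -/
noncomputable def pd (K : Type*) [Field K] {n : ℕ} (i : Fin n) :
    Module.End K (MvPolynomial (Fin n) K) :=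
  (pderiv i : Derivation K (MvPolynomial (Fin n) K) (MvPolynomial (Fin n) K)).toLinearMap

/-- The partial derivatives commute. -/
theorem pd_commute (i j : Fin n) : Commute (pd K i) (pd K j) := by
  have h : ⁅(pderiv i : Derivation K (MvPolynomial (Fin n) K) (MvPolynomial (Fin n) K)),
      (pderiv j : Derivation K (MvPolynomial (Fin n) K) (MvPolynomial (Fin n) K))⁆ = 0 := by
    apply MvPolynomial.derivation_ext
    intro k
    rw [Derivation.commutator_apply]
    classical
    rw [pderiv_X, pderiv_X]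
    have e1 : ∀ (a b c : Fin n), (pderiv c : Derivation K (MvPolynomial (Fin n) K) _)
        ((Pi.single a (1 : MvPolynomial (Fin n) K) : Fin n → MvPolynomial (Fin n) K) b) = 0 := by
      intro a b c
      by_cases h : b = a
      · subst h; simp
      · rw [Pi.single_eq_of_ne h]; simp
    rw [e1, e1, sub_zero, Derivation.coe_zero, Pi.zero_apply]
  apply LinearMap.ext
  intro f
  have h2 := congrArg (fun D : Derivation K (MvPolynomial (Fin n) K) (MvPolynomial (Fin n) K) =>
    D f) h
  simp only [Derivation.commutator_apply, Derivation.coe_zero, Pi.zero_apply] at h2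
  simpa [pd, sub_eq_zero] using h2

/-- Powers of the partial derivatives commute. -/
theorem pd_pow_pairwise (s : Set (Fin n)) (α : Fin n → ℕ) :
    s.Pairwise (Function.onFun Commute fun i => pd K i ^ α i) :=
  fun i _ j _ _ => (pd_commute i j).pow_pow _ _

/-- The differential monomial `∂^α = ∏ i, (∂/∂y_i)^(α i)`. -/
noncomputable def dmon (K : Type*) [Field K] {n : ℕ} (α : Fin n →₀ ℕ) :
    Module.End K (MvPolynomial (Fin n) K) :=
  Finset.univ.noncommProd (fun i : Fin n => pd K i ^ α i) (pd_pow_pairwise _ α)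

/-- The action of `R = K[x_0,…,x_{n-1}]` on `S = K[y_0,…,y_{n-1}]` by differentiation:
`diffOp g F` is `g ∘ F = ∑_α g_α ∂^α F`. -/
noncomputable def diffOp (g : MvPolynomial (Fin n) K) : Module.End K (MvPolynomial (Fin n) K) :=
  ∑ α ∈ g.support, g.coeff α • dmon K α

/-- `P` holds for a general linear form `L = ∑ c_i x_i`, i.e. for all `c` outside the zero set of
some nonzero polynomial. -/
def ForGeneralLinearForm (K : Type*) [Field K] (n : ℕ) (P : MvPolynomial (Fin n) K → Prop) :
    Prop :=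
  ∃ q : MvPolynomial (Fin n) K, q ≠ 0 ∧
    ∀ c : Fin n → K, eval c q ≠ 0 → P (∑ i, C (c i) * X i)

/-- `J = I + (x_0^{a_0},…,x_{n-1}^{a_{n-1}})`. -/
noncomputable def idealJ (I : Ideal (MvPolynomial (Fin n) K)) (a : Fin n → ℕ) :
    Ideal (MvPolynomial (Fin n) K) :=
  I ⊔ Ideal.span (Set.range fun i => X i ^ a i)

/-- `A = R/J` fails the WLP in degree `t - 1`: for a general linear form `L`, the map
`×L : A_{t-1} → A_t` is neither injective nor surjective.  (`A_s` is the image of the forms of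
degree `s` in `A = R/J`.) -/
def FailsWLP (J : Ideal (MvPolynomial (Fin n) K)) (t : ℕ) : Prop :=
  ForGeneralLinearForm K n fun L =>
    (¬ ∀ f ∈ homogeneousSubmodule (Fin n) K (t - 1),
        Ideal.Quotient.mk J L * Ideal.Quotient.mk J f = 0 → Ideal.Quotient.mk J f = 0) ∧
    (¬ ∀ g ∈ homogeneousSubmodule (Fin n) K t, ∃ f ∈ homogeneousSubmodule (Fin n) K (t - 1),
        Ideal.Quotient.mk J L * Ideal.Quotient.mk J f = Ideal.Quotient.mk J g)

/-- The kernel `𝒦 = {F ∈ S_t : J ∘ F = 0, L ∘ F = 0}`. -/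
def dualKernel (J : Ideal (MvPolynomial (Fin n) K)) (L : MvPolynomial (Fin n) K) (t : ℕ) :
    Set (MvPolynomial (Fin n) K) :=
  {F | F ∈ homogeneousSubmodule (Fin n) K t ∧ (∀ g ∈ J, diffOp g F = 0) ∧ diffOp L F = 0}

/-- `θ_1,…,θ_r` is a system of parameters of `I`: homogeneous elements, `r = dim R/I` and
`R/(I + (θ_1,…,θ_r))` is artinian. -/
structure IsSop (I : Ideal (MvPolynomial (Fin n) K)) {r : ℕ}
    (θ : Fin r → MvPolynomial (Fin n) K) : Prop where
  card_eq : (r : WithBot ℕ∞) = ringKrullDim (MvPolynomial (Fin n) K ⧸ I)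
  homogeneous : ∀ i, ∃ d, (θ i).IsHomogeneous d
  artinian : IsArtinianRing (MvPolynomial (Fin n) K ⧸ (I ⊔ Ideal.span (Set.range θ)))

/-- `I` is a complete intersection generated by squarefree monomials. -/
def IsSquarefreeMonomialCI (I : Ideal (MvPolynomial (Fin n) K)) : Prop :=
  ∃ s : List (Finset (Fin n)),
    RingTheory.Sequence.IsRegular (MvPolynomial (Fin n) K)
      (s.map fun e => ∏ i ∈ e, (X i : MvPolynomial (Fin n) K)) ∧
    I = Ideal.ofList (s.map fun e => ∏ i ∈ e, (X i : MvPolynomial (Fin n) K))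

/-! ### Basic properties of the action -/

theorem dmon_zero : dmon K (0 : Fin n →₀ ℕ) = 1 := by
  unfold dmon
  rw [Finset.noncommProd_eq_pow_card _ _ _ (1 : Module.End K (MvPolynomial (Fin n) K))]
  · simp
  · intro i _
    simp

theorem dmon_add (α β : Fin n →₀ ℕ) : dmon K (α + β) = dmon K α * dmon K β := by
  unfold dmon
  rw [← Finset.noncommProd_mul_distrib]
  · apply Finset.noncommProd_congr rfl
    intro i _
    simp [pow_add]
  · intro i _ j _ _
    exact (pd_commute i j).pow_pow _ _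

theorem dmon_single (i : Fin n) : dmon K (Finsupp.single i 1) = pd K i := by
  classical
  unfold dmon
  have h1 : ∀ s : Finset (Fin n), i ∉ s → s.noncommProd
      (fun j : Fin n => pd K j ^ (Finsupp.single i 1 : Fin n →₀ ℕ) j)
        (pd_pow_pairwise _ _) = 1 := by
    intro s hs
    rw [Finset.noncommProd_eq_pow_card _ _ _ (1 : Module.End K (MvPolynomial (Fin n) K))]
    · simp
    · intro j hj
      have : i ≠ j := fun h => hs (h ▸ hj)
      simp [this]
  have h2 : (Finset.univ : Finset (Fin n)) = insert i (Finset.univ.erase i) := by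
    rw [Finset.insert_erase (Finset.mem_univ i)]
  have h3 : Finset.univ.noncommProd
      (fun j : Fin n => pd K j ^ (Finsupp.single i 1 : Fin n →₀ ℕ) j) (pd_pow_pairwise _ _) =
      (insert i (Finset.univ.erase i)).noncommProd
      (fun j : Fin n => pd K j ^ (Finsupp.single i 1 : Fin n →₀ ℕ) j) (pd_pow_pairwise _ _) :=
    Finset.noncommProd_congr h2 (fun _ _ => rfl) _
  rw [h3, Finset.noncommProd_insert_of_notMem _ _ _ _ (Finset.notMem_erase i _),
    h1 _ (Finset.notMem_erase i _)]
  simp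

theorem diffOp_eq_sum_of_subset (g : MvPolynomial (Fin n) K) (s : Finset (Fin n →₀ ℕ))
    (h : g.support ⊆ s) : diffOp g = ∑ α ∈ s, g.coeff α • dmon K α := by
  unfold diffOp
  apply Finset.sum_subset h
  intro α _ hα
  rw [MvPolynomial.notMem_support_iff.mp hα, zero_smul]

theorem diffOp_add (g h : MvPolynomial (Fin n) K) : diffOp (g + h) = diffOp g + diffOp h := by
  classical
  rw [diffOp_eq_sum_of_subset (g + h) (g.support ∪ h.support) MvPolynomial.support_add,
    diffOp_eq_sum_of_subset g (g.support ∪ h.support) Finset.subset_union_left,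
    diffOp_eq_sum_of_subset h (g.support ∪ h.support) Finset.subset_union_right,
    ← Finset.sum_add_distrib]
  simp [add_smul]

theorem diffOp_neg (g : MvPolynomial (Fin n) K) : diffOp (-g) = - diffOp g := by
  rw [diffOp_eq_sum_of_subset (-g) g.support (by rw [MvPolynomial.support_neg])]
  unfold diffOp
  rw [← Finset.sum_neg_distrib]
  refine Finset.sum_congr rfl fun x _ => ?_
  rw [coeff_neg]
  exact neg_smul (coeff x g) (dmon K x)

theorem diffOp_sub (g h : MvPolynomial (Fin n) K) : diffOp (g - h) = diffOp g - diffOp h := by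
  rw [sub_eq_add_neg, diffOp_add, diffOp_neg, sub_eq_add_neg]

theorem diffOp_monomial (α : Fin n →₀ ℕ) (c : K) : diffOp (monomial α c) = c • dmon K α := by
  classical
  rw [diffOp_eq_sum_of_subset (monomial α c) {α} MvPolynomial.support_monomial_subset]
  simp

theorem diffOp_zero : diffOp (0 : MvPolynomial (Fin n) K) = 0 := by
  simp [diffOp]

theorem diffOp_mul (g h : MvPolynomial (Fin n) K) : diffOp (g * h) = diffOp g * diffOp h := by
  induction g using MvPolynomial.induction_on' with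
  | add p q hp hq => rw [add_mul, diffOp_add, hp, hq, diffOp_add, add_mul]
  | monomial α a =>
    induction h using MvPolynomial.induction_on' with
    | add p q hp hq => rw [mul_add, diffOp_add, hp, hq, diffOp_add, mul_add]
    | monomial β b =>
      rw [monomial_mul, diffOp_monomial, diffOp_monomial, diffOp_monomial, dmon_add,
        smul_mul_smul_comm]

theorem diffOp_C (c : K) : diffOp (C c : MvPolynomial (Fin n) K) = c • 1 := by
  rw [← monomial_zero', diffOp_monomial, dmon_zero]

theorem diffOp_X (i : Fin n) (F : MvPolynomial (Fin n) K) : diffOp (X i) F = pderiv i F := by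
  unfold X
  rw [diffOp_monomial, dmon_single, one_smul]
  rfl

/-- The annihilator of `F`, as an ideal. -/
noncomputable def annIdeal (F : MvPolynomial (Fin n) K) : Ideal (MvPolynomial (Fin n) K) where
  carrier := {g | diffOp g F = 0}
  add_mem' := by
    intro a b ha hb
    simp only [Set.mem_ofPred_eq] at *
    rw [diffOp_add, LinearMap.add_apply, ha, hb, add_zero]
  zero_mem' := by simp [diffOp_zero]
  smul_mem' := by
    intro c x hx
    simp only [Set.mem_ofPred_eq, smul_eq_mul] at *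
    rw [diffOp_mul, Module.End.mul_apply, hx, map_zero]

theorem mem_annIdeal {F g : MvPolynomial (Fin n) K} : g ∈ annIdeal F ↔ diffOp g F = 0 := Iff.rfl

theorem diffOp_mul_apply (g h F : MvPolynomial (Fin n) K) :
    diffOp (g * h) F = diffOp g (diffOp h F) := by
  rw [diffOp_mul, Module.End.mul_apply]

theorem diffOp_C_apply (c : K) (F : MvPolynomial (Fin n) K) :
    diffOp (C c) F = c • F := by
  rw [diffOp_C]; rfl

theorem diffOp_linear (c : Fin n → K) (F : MvPolynomial (Fin n) K) :
    diffOp (∑ i, C (c i) * X i) F = ∑ i, c i • pderiv i F := by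
  classical
  have h : ∀ s : Finset (Fin n), diffOp (∑ i ∈ s, C (c i) * X i) F
      = ∑ i ∈ s, c i • pderiv i F := by
    intro s
    induction s using Finset.induction_on with
    | empty => simp [diffOp_zero]
    | insert a s ha ih =>
      rw [Finset.sum_insert ha, Finset.sum_insert ha, diffOp_add, LinearMap.add_apply, ih,
        diffOp_mul_apply, diffOp_C_apply, diffOp_X]
  exact h _

/-- A homogeneous polynomial of positive degree all of whose partial derivatives vanish is zero
(characteristic zero). -/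
theorem eq_zero_of_pderiv [CharZero K] {m : ℕ} (hm : m ≠ 0) {G : MvPolynomial (Fin n) K}
    (hG : G.IsHomogeneous m) (h : ∀ i, pderiv i G = 0) : G = 0 := by
  have h1 := hG.sum_X_mul_pderiv
  simp only [h, mul_zero, Finset.sum_const_zero] at h1
  have h2 : (m : K) • G = 0 := by
    rw [Nat.cast_smul_eq_nsmul]
    exact h1.symm
  rcases smul_eq_zero.mp h2 with h3 | h3
  · exact absurd (by exact_mod_cast h3) hm
  · exact h3

/-! ### The example -/

section Example

variable (K)

/-- The ideal `I = (x_0 x_1, x_2 x_3)` of the example. -/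
noncomputable abbrev exI : Ideal (MvPolynomial (Fin 4) K) := Ideal.span {X 0 * X 1, X 2 * X 3}

/-- The exponents `a = (3, 5, 3, 5)` of the example. -/
abbrev exA : Fin 4 → ℕ := ![3, 5, 3, 5]

variable {K}

theorem idealJ_le_iff (P : Ideal (MvPolynomial (Fin 4) K)) : idealJ (exI K) exA ≤ P ↔
    X 0 * X 1 ∈ P ∧ X 2 * X 3 ∈ P ∧ X 0 ^ 3 ∈ P ∧ X 1 ^ 5 ∈ P ∧ X 2 ^ 3 ∈ P ∧ X 3 ^ 5 ∈ P := by
  unfold idealJ exI exA
  rw [sup_le_iff, Ideal.span_le, Ideal.span_le]
  constructor
  · rintro ⟨h1, h2⟩
    refine ⟨h1 (by simp), h1 (by simp), ?_, ?_, ?_, ?_⟩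
    · exact h2 ⟨0, by simp⟩
    · exact h2 ⟨1, by simp⟩
    · exact h2 ⟨2, by simp⟩
    · exact h2 ⟨3, by simp⟩
  · rintro ⟨h1, h2, h3, h4, h5, h6⟩
    constructor
    · intro x hx
      rcases hx with rfl | rfl
      · exact h1
      · exact h2
    · rintro x ⟨i, rfl⟩
      fin_cases i <;> simpa

theorem sum_four (c : Fin 4 → K) : (∑ i, C (c i) * X i : MvPolynomial (Fin 4) K) =
    C (c 0) * X 0 + C (c 1) * X 1 + C (c 2) * X 2 + C (c 3) * X 3 := by
  rw [Fin.sum_univ_four]

/-- In the example, `×L` is not injective. -/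
theorem not_injective [CharZero K] (c : Fin 4 → K) (h2 : c 2 ≠ 0) :
    ¬ ∀ f ∈ homogeneousSubmodule (Fin 4) K (4 - 1),
        Ideal.Quotient.mk (idealJ (exI K) exA) (∑ i, C (c i) * X i) *
          Ideal.Quotient.mk (idealJ (exI K) exA) f = 0 →
        Ideal.Quotient.mk (idealJ (exI K) exA) f = 0 := by
  intro H
  obtain ⟨m1, m2, m3, m4, m5, m6⟩ := (idealJ_le_iff (idealJ (exI K) exA)).mp le_rfl
  have hf : (X 0 * X 2 * (C (c 2) * X 2 - C (c 0) * X 0) : MvPolynomial (Fin 4) K) ∈
      homogeneousSubmodule (Fin 4) K (4 - 1) := by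
    rw [mem_homogeneousSubmodule]
    have e1 : (X 0 * X 2 : MvPolynomial (Fin 4) K).IsHomogeneous 2 :=
      (isHomogeneous_X K 0).mul (isHomogeneous_X K 2)
    have e2 : (C (c 2) * X 2 - C (c 0) * X 0 : MvPolynomial (Fin 4) K).IsHomogeneous 1 := by
      apply IsHomogeneous.sub
      · simpa using (isHomogeneous_C (Fin 4) (c 2)).mul (isHomogeneous_X K 2)
      · simpa using (isHomogeneous_C (Fin 4) (c 0)).mul (isHomogeneous_X K 0)
    exact e1.mul e2
  have key := H _ hf
  rw [← map_mul, Ideal.Quotient.eq_zero_iff_mem, Ideal.Quotient.eq_zero_iff_mem] at key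
  have hmem : (∑ i, C (c i) * X i) * (X 0 * X 2 * (C (c 2) * X 2 - C (c 0) * X 0)) ∈
      idealJ (exI K) exA := by
    rw [sum_four]
    have e : (C (c 0) * X 0 + C (c 1) * X 1 + C (c 2) * X 2 + C (c 3) * X 3) *
        (X 0 * X 2 * (C (c 2) * X 2 - C (c 0) * X 0) : MvPolynomial (Fin 4) K) =
        (C (c 2) * C (c 2) * X 0) * X 2 ^ 3 - (C (c 0) * C (c 0) * X 2) * X 0 ^ 3 +
        (C (c 1) * X 2 * (C (c 2) * X 2 - C (c 0) * X 0)) * (X 0 * X 1) +
        (C (c 3) * X 0 * (C (c 2) * X 2 - C (c 0) * X 0)) * (X 2 * X 3) := by ring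
    rw [e]
    exact Ideal.add_mem _ (Ideal.add_mem _ (Ideal.sub_mem _ (Ideal.mul_mem_left _ _ m5)
      (Ideal.mul_mem_left _ _ m3)) (Ideal.mul_mem_left _ _ m1)) (Ideal.mul_mem_left _ _ m2)
  have h3 := key hmem
  have hle : idealJ (exI K) exA ≤ annIdeal (X 0 * X 2 ^ 2 : MvPolynomial (Fin 4) K) := by
    rw [idealJ_le_iff]
    simp only [mem_annIdeal, pow_succ, pow_zero, one_mul, diffOp_mul_apply, diffOp_X]
    refine ⟨?_, ?_, ?_, ?_, ?_, ?_⟩ <;>
    simp [pderiv_X]
  have h4 := hle h3
  rw [mem_annIdeal] at h4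
  simp only [pow_succ, pow_zero, one_mul, diffOp_mul_apply, diffOp_X, diffOp_sub,
    LinearMap.sub_apply, diffOp_C_apply] at h4
  simp [pderiv_X] at h4
  exact h2 h4

/-- In the example, `×L` is not surjective. -/
theorem not_surjective [CharZero K] (c : Fin 4 → K) (h3 : c 3 ≠ 0) :
    ¬ ∀ g ∈ homogeneousSubmodule (Fin 4) K 4, ∃ f ∈ homogeneousSubmodule (Fin 4) K (4 - 1),
        Ideal.Quotient.mk (idealJ (exI K) exA) (∑ i, C (c i) * X i) *
          Ideal.Quotient.mk (idealJ (exI K) exA) f = Ideal.Quotient.mk (idealJ (exI K) exA) g := by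
  intro H
  obtain ⟨f, _, hf⟩ := H (X 1 ^ 4) (by
    rw [mem_homogeneousSubmodule]
    simpa using (isHomogeneous_X K (1 : Fin 4)).pow 4)
  rw [← map_mul, Ideal.Quotient.eq] at hf
  set F : MvPolynomial (Fin 4) K := (C (c 3) * X 1 - C (c 1) * X 3) ^ 4 with hF
  have hL : diffOp (∑ i, C (c i) * X i) F = 0 := by
    rw [diffOp_linear, Fin.sum_univ_four, hF]
    simp [pderiv_X, smul_eq_C_mul]
    ring
  have hle : idealJ (exI K) exA ≤ annIdeal F := by
    rw [idealJ_le_iff, hF]
    simp only [mem_annIdeal, pow_succ, pow_zero, one_mul, diffOp_mul_apply, diffOp_X]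
    refine ⟨?_, ?_, ?_, ?_, ?_, ?_⟩ <;>
    simp [pderiv_X]
  have h4 := hle hf
  rw [mem_annIdeal, diffOp_sub, mul_comm, LinearMap.sub_apply, diffOp_mul_apply, hL, map_zero,
    zero_sub, neg_eq_zero] at h4
  rw [hF] at h4
  simp only [pow_succ, pow_zero, one_mul, diffOp_mul_apply, diffOp_X] at h4
  simp [pderiv_X] at h4
  have h5 : (C (24 * c 3 ^ 4) : MvPolynomial (Fin 4) K) = 0 := by
    have e : (C (24 * c 3 ^ 4) : MvPolynomial (Fin 4) K) = 24 * C (c 3) ^ 4 := by
      rw [C_mul, C_pow, map_ofNat]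
    rw [e]
    linear_combination h4
  rw [C_eq_zero] at h5
  have h6 : (24 : K) ≠ 0 := by norm_num
  exact (mul_ne_zero h6 (pow_ne_zero 4 h3)) h5

/-- The ring-theoretic core of the argument. -/
theorem quartic_core {A : Type*} [CommRing A] (u v w s g0 g1 g2 g3 d1 d2 d3 : A)
    (k1 : u * v = 0) (k2 : w * s = 0) (k3 : u ^ 3 = 0) (k5 : w ^ 3 = 0)
    (kL : g0 * u + g1 * v + g2 * w + g3 * s = 0)
    (i1 : d1 * g1 = 1) (i2 : d2 * g2 = 1) (i3 : d3 * g3 = 1) (i j k : Fin 4) :
    ![u, v, w, s] k * (![u, v, w, s] j * (![u, v, w, s] i * u)) = 0 ∧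
    ![u, v, w, s] k * (![u, v, w, s] j * (![u, v, w, s] i * w)) = 0 := by
  have z1 : u ^ 2 * w ^ 2 = 0 := by
    linear_combination (d2*u^2*w)*kL - (u^2*w^2)*i2 - (d2*g0*w)*k3 - (d2*g1*u*w)*k1 - (d2*g3*u^2)*k2
  have z2 : u ^ 2 * s ^ 2 = 0 := by
    linear_combination (d3*u^2*s)*kL - (u^2*s^2)*i3 - (d3*g0*s)*k3 - (d3*g1*u*s)*k1 - (d3*g2*u^2)*k2
  have z3 : u * s ^ 3 = 0 := by
    linear_combination (d3*u*s^2)*kL - (u*s^3)*i3 - (d3*g0)*z2 - (d3*g1*s^2)*k1 - (d3*g2*u*s)*k2
  have z4 : w ^ 2 * v ^ 2 = 0 := by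
    linear_combination (d1*w^2*v)*kL - (w^2*v^2)*i1 - (d1*g0*w^2)*k1 - (d1*g2*v)*k5 - (d1*g3*w*v)*k2
  have z5 : w * v ^ 3 = 0 := by
    linear_combination (d1*w*v^2)*kL - (w*v^3)*i1 - (d1*g0*w*v)*k1 - (d1*g2)*z4 - (d1*g3*v^2)*k2
  clear kL i1 i2 i3
  constructor <;> fin_cases i <;> fin_cases j <;> fin_cases k <;>
    simp only [Matrix.cons_val_zero, Matrix.cons_val_one, Matrix.cons_val, Fin.zero_eta, Fin.mk_one, Fin.reduceFinMk] <;> grind

theorem eq_zero_of_three [CharZero K] (G : MvPolynomial (Fin 4) K) (hG : G.IsHomogeneous 3)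
    (h : ∀ i j k, pderiv k (pderiv j (pderiv i G)) = 0) : G = 0 := by
  apply eq_zero_of_pderiv (m := 3) (by norm_num) hG
  intro i
  have h1 : (pderiv i G).IsHomogeneous 2 := hG.pderiv
  apply eq_zero_of_pderiv (m := 2) (by norm_num) h1
  intro j
  have h2 : (pderiv j (pderiv i G)).IsHomogeneous 1 := h1.pderiv
  exact eq_zero_of_pderiv (m := 1) (by norm_num) h2 (fun k => h i j k)

/-- In the example every `F` in the kernel is annihilated by `x_0` and by `x_2`. -/
theorem ann_vars [CharZero K] (c : Fin 4 → K) (h : ∀ i, c i ≠ 0)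
    (F : MvPolynomial (Fin 4) K)
    (hF : F ∈ dualKernel (idealJ (exI K) exA) (∑ i, C (c i) * X i) 4) :
    X 0 ∈ annIdeal F ∧ X 2 ∈ annIdeal F := by
  obtain ⟨hhom, hJ, hL⟩ := hF
  rw [mem_homogeneousSubmodule] at hhom
  have hle : idealJ (exI K) exA ≤ annIdeal F := fun g hg => hJ g hg
  obtain ⟨m1, m2, m3, m4, m5, m6⟩ := (idealJ_le_iff _).mp hle
  have mL : (∑ i, C (c i) * X i : MvPolynomial (Fin 4) K) ∈ annIdeal F := hL
  rw [sum_four] at mL
  -- work in the quotient by the annihilator
  let q := Ideal.Quotient.mk (annIdeal F)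
  have hq : ∀ g, q g = 0 ↔ g ∈ annIdeal F := fun g => Ideal.Quotient.eq_zero_iff_mem
  have k1 : q (X 0) * q (X 1) = 0 := by rw [← map_mul, hq]; exact m1
  have k2 : q (X 2) * q (X 3) = 0 := by rw [← map_mul, hq]; exact m2
  have k3 : q (X 0) ^ 3 = 0 := by rw [← map_pow, hq]; exact m3
  have k5 : q (X 2) ^ 3 = 0 := by rw [← map_pow, hq]; exact m5
  have kL : q (C (c 0)) * q (X 0) + q (C (c 1)) * q (X 1) + q (C (c 2)) * q (X 2) +
      q (C (c 3)) * q (X 3) = 0 := by
    rw [← map_mul, ← map_mul, ← map_mul, ← map_mul, ← map_add, ← map_add, ← map_add, hq]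
    exact mL
  have inv : ∀ i, q (C (c i)⁻¹) * q (C (c i)) = 1 := by
    intro i
    rw [← map_mul, ← C_mul, inv_mul_cancel₀ (h i), C_1, map_one]
  have core := quartic_core (q (X 0)) (q (X 1)) (q (X 2)) (q (X 3)) (q (C (c 0))) (q (C (c 1)))
    (q (C (c 2))) (q (C (c 3))) (q (C (c 1)⁻¹)) (q (C (c 2)⁻¹)) (q (C (c 3)⁻¹)) k1 k2 k3 k5 kL
    (inv 1) (inv 2) (inv 3)
  have hv : ∀ i : Fin 4, ![q (X 0), q (X 1), q (X 2), q (X 3)] i = q (X i) := by
    intro i
    fin_cases i <;> rfl
  simp only [hv, ← map_mul, hq, mem_annIdeal, diffOp_mul_apply, diffOp_X] at core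
  constructor
  · rw [mem_annIdeal, diffOp_X]
    exact eq_zero_of_three _ hhom.pderiv (fun i j k => (core i j k).1)
  · rw [mem_annIdeal, diffOp_X]
    exact eq_zero_of_three _ hhom.pderiv (fun i j k => (core i j k).2)

/-- The linear part of a polynomial, as a vector of coefficients. -/
noncomputable def lin (g : MvPolynomial (Fin 4) K) : Fin 4 → K :=
  fun i => constantCoeff (pderiv i g)

theorem lin_add (g h : MvPolynomial (Fin 4) K) : lin (g + h) = lin g + lin h := by
  funext i; simp [lin]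

theorem lin_mul (g h : MvPolynomial (Fin 4) K) :
    lin (g * h) = constantCoeff g • lin h + constantCoeff h • lin g := by
  funext i
  simp [lin]

theorem lin_exI {g : MvPolynomial (Fin 4) K} (hg : g ∈ exI K) : lin g = 0 := by
  obtain ⟨a, b, rfl⟩ := Ideal.mem_span_pair.mp hg
  simp [lin_add, lin_mul]

theorem lin_span {r : ℕ} (θ : Fin r → MvPolynomial (Fin 4) K)
    (h0 : ∀ j, constantCoeff (θ j) = 0) {g : MvPolynomial (Fin 4) K}
    (hg : g ∈ Ideal.span (Set.range θ)) :
    lin g ∈ Submodule.span K (Set.range fun j => lin (θ j)) := by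
  induction hg using Submodule.span_induction with
  | mem x hx =>
    obtain ⟨j, rfl⟩ := hx
    exact Submodule.subset_span ⟨j, rfl⟩
  | zero =>
    have : lin (0 : MvPolynomial (Fin 4) K) = 0 := by funext i; simp [lin]
    rw [this]
    exact Submodule.zero_mem _
  | add x y _ _ hx hy => rw [lin_add]; exact Submodule.add_mem _ hx hy
  | smul a x hx' hx =>
    rw [smul_eq_mul, lin_mul]
    have hx0 : constantCoeff x = 0 := by
      have hle : Ideal.span (Set.range θ) ≤ RingHom.ker (constantCoeff (R := K) (σ := Fin 4)) := by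
        rw [Ideal.span_le]
        rintro _ ⟨j, rfl⟩
        exact h0 j
      exact hle hx'
    rw [hx0, zero_smul, add_zero]
    exact Submodule.smul_mem _ _ hx

/-- `x_2 x_3` is a nonzerodivisor modulo `x_0 x_1`. -/
theorem dvd_of_dvd_mul {f : MvPolynomial (Fin 4) K} (h : X 0 * X 1 ∣ f * (X 2 * X 3)) :
    X 0 * X 1 ∣ f := by
  have hprime : ∀ i : Fin 4, Prime (X i : MvPolynomial (Fin 4) K) := fun i => X_prime
  have hdvd : ∀ {i j : Fin 4}, (X i : MvPolynomial (Fin 4) K) ∣ X j → i = j := by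
    intro i j h
    exact X_dvd_X.mp h
  obtain ⟨g, hg⟩ := h
  have h0 : (X 0 : MvPolynomial (Fin 4) K) ∣ f * (X 2 * X 3) := by
    rw [hg]; exact ⟨X 1 * g, by ring⟩
  have h0' : (X 0 : MvPolynomial (Fin 4) K) ∣ f := by
    rcases (hprime 0).dvd_or_dvd h0 with h | h
    · exact h
    · rcases (hprime 0).dvd_or_dvd h with h | h
      · exact absurd (hdvd h) (by decide)
      · exact absurd (hdvd h) (by decide)
  obtain ⟨f1, rfl⟩ := h0'
  have hg2 : f1 * (X 2 * X 3) = X 1 * g := by
    have := (hprime 0).ne_zero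
    apply mul_left_cancel₀ this
    linear_combination hg
  have h3 : (X 1 : MvPolynomial (Fin 4) K) ∣ f1 := by
    have h4 : (X 1 : MvPolynomial (Fin 4) K) ∣ f1 * (X 2 * X 3) := ⟨g, hg2⟩
    rcases (hprime 1).dvd_or_dvd h4 with h | h
    · exact h
    · rcases (hprime 1).dvd_or_dvd h with h | h
      · exact absurd (hdvd h) (by decide)
      · exact absurd (hdvd h) (by decide)
  exact mul_dvd_mul_left _ h3

/-- `dim R/I ≤ 2` in the example. -/
theorem dim_le : ringKrullDim (MvPolynomial (Fin 4) K ⧸ exI K) + 1 + 1 ≤ 4 := by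
  have hprime : ∀ i : Fin 4, Prime (X i : MvPolynomial (Fin 4) K) := fun i => X_prime
  have hle : Ideal.span {(X 0 * X 1 : MvPolynomial (Fin 4) K)} ≤ exI K :=
    Ideal.span_mono (by simp)
  have h1 : ringKrullDim (MvPolynomial (Fin 4) K ⧸ exI K) + 1 ≤
      ringKrullDim (MvPolynomial (Fin 4) K ⧸ Ideal.span {(X 0 * X 1 : MvPolynomial (Fin 4) K)}) := by
    apply ringKrullDim_succ_le_of_surjective (Ideal.Quotient.factor hle)
      (Ideal.Quotient.factor_surjective hle) (r := Ideal.Quotient.mk _ (X 2 * X 3))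
    · rw [mem_nonZeroDivisors_iff_right]
      intro x hx
      obtain ⟨f, rfl⟩ := Ideal.Quotient.mk_surjective x
      rw [← map_mul, Ideal.Quotient.eq_zero_iff_mem, Ideal.mem_span_singleton] at hx
      rw [Ideal.Quotient.eq_zero_iff_mem, Ideal.mem_span_singleton]
      exact dvd_of_dvd_mul hx
    · rw [Ideal.Quotient.factor_mk, Ideal.Quotient.eq_zero_iff_mem]
      exact Ideal.subset_span (by simp)
  have h2 : ringKrullDim (MvPolynomial (Fin 4) K ⧸ Ideal.span {(X 0 * X 1 : MvPolynomial (Fin 4) K)})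
      + 1 ≤ ringKrullDim (MvPolynomial (Fin 4) K) := by
    apply ringKrullDim_quotient_succ_le_of_nonZeroDivisor
    exact mem_nonZeroDivisors_of_ne_zero (mul_ne_zero (hprime 0).ne_zero (hprime 1).ne_zero)
  have h3 : ringKrullDim (MvPolynomial (Fin 4) K) = 4 := by
    rw [MvPolynomial.ringKrullDim_of_isNoetherianRing, ringKrullDim_eq_zero_of_field]
    simp
  calc ringKrullDim (MvPolynomial (Fin 4) K ⧸ exI K) + 1 + 1 ≤ _ + 1 := by gcongr
    _ ≤ _ := h2
    _ = 4 := h3

/-- `I` is a complete intersection of squarefree monomials. -/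
theorem isCI : IsSquarefreeMonomialCI (exI K) := by
  have hprime : ∀ i : Fin 4, Prime (X i : MvPolynomial (Fin 4) K) := fun i => X_prime
  refine ⟨[{0, 1}, {2, 3}], ?_, ?_⟩
  · have e : (([{0, 1}, {2, 3}] : List (Finset (Fin 4))).map
        fun e => ∏ i ∈ e, (X i : MvPolynomial (Fin 4) K)) = [X 0 * X 1, X 2 * X 3] := by
      simp
    rw [e]
    constructor
    · constructor
      intro i hi
      rw [isSMulRegular_quotient_iff_mem_of_smul_mem]
      have hi' : i < 2 := by simpa using hi
      interval_cases i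
      · intro x hx
        simp only [List.take_zero, Ideal.ofList_nil, Ideal.mul_top, Ideal.mem_bot,
          List.getElem_cons_zero, smul_eq_mul] at hx ⊢
        rcases mul_eq_zero.mp hx with h | h
        · exact absurd h (mul_ne_zero (hprime 0).ne_zero (hprime 1).ne_zero)
        · exact h
      · intro x hx
        simp only [List.take_succ_cons, List.take_zero, Ideal.ofList_singleton,
          List.getElem_cons_succ, List.getElem_cons_zero, smul_eq_mul, Ideal.mul_top,
          Ideal.mem_span_singleton] at hx ⊢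
        apply dvd_of_dvd_mul
        rwa [mul_comm x]
    · intro h
      have h1 : (1 : MvPolynomial (Fin 4) K) ∈ Ideal.ofList
          [(X 0 * X 1 : MvPolynomial (Fin 4) K), X 2 * X 3] := by
        have : (1 : MvPolynomial (Fin 4) K) ∈ (⊤ : Submodule (MvPolynomial (Fin 4) K)
          (MvPolynomial (Fin 4) K)) := trivial
        rw [h] at this
        simpa using this
      have h2 : Ideal.ofList [(X 0 * X 1 : MvPolynomial (Fin 4) K), X 2 * X 3] ≤
          RingHom.ker (constantCoeff (R := K) (σ := Fin 4)) := by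
        simp [Ideal.span_le, RingHom.mem_ker]
      have h3 := h2 h1
      rw [RingHom.mem_ker, map_one] at h3
      exact one_ne_zero h3
  · simp [exI, Ideal.span_insert]

/-- `I` contains no pure power of a variable. -/
theorem no_pure_power (i : Fin 4) (b : ℕ) : (X i : MvPolynomial (Fin 4) K) ^ b ∉ exI K := by
  intro h
  have hle : exI K ≤ RingHom.ker (aeval (fun j => if j = i then (1 : K) else 0) :
      MvPolynomial (Fin 4) K →ₐ[K] K) := by
    rw [Ideal.span_le]
    intro x hx
    rcases hx with rfl | rfl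
    · fin_cases i <;> simp
    · fin_cases i <;> simp
  have := hle h
  rw [RingHom.mem_ker] at this
  simp at this

/-- A general linear form has all coefficients nonzero. -/
theorem forGeneral_of {P : MvPolynomial (Fin 4) K → Prop}
    (h : ∀ c : Fin 4 → K, (∀ i, c i ≠ 0) → P (∑ i, C (c i) * X i)) :
    ForGeneralLinearForm K 4 P := by
  refine ⟨X 0 * X 1 * X 2 * X 3, ?_, ?_⟩
  · exact mul_ne_zero (mul_ne_zero (mul_ne_zero (X_ne_zero 0) (X_ne_zero 1)) (X_ne_zero 2))
      (X_ne_zero 3)
  · intro c hc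
    apply h
    simp only [map_mul, eval_X, ne_eq, mul_eq_zero, not_or] at hc
    obtain ⟨⟨⟨h0, h1⟩, h2⟩, h3⟩ := hc
    intro i
    fin_cases i
    · exact h0
    · exact h1
    · exact h2
    · exact h3

theorem failsWLP [CharZero K] : FailsWLP (idealJ (exI K) exA) 4 :=
  forGeneral_of fun c hc => ⟨not_injective c (hc 2), not_surjective c (hc 3)⟩

/-- No nonzero element of the kernel has an annihilator of the form `I + (θ_1,…,θ_r)`. -/
theorem no_dual_generator [CharZero K] (c : Fin 4 → K) (h : ∀ i, c i ≠ 0)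
    (F : MvPolynomial (Fin 4) K)
    (hF : F ∈ dualKernel (idealJ (exI K) exA) (∑ i, C (c i) * X i) 4) (hF0 : F ≠ 0)
    (r : ℕ) (θ : Fin r → MvPolynomial (Fin 4) K) (hθ : IsSop (exI K) θ) :
    ¬ ∀ g, diffOp g F = 0 ↔ g ∈ exI K ⊔ Ideal.span (Set.range θ) := by
  intro H
  obtain ⟨a0, a2⟩ := ann_vars c h F hF
  have aL : (∑ i, C (c i) * X i : MvPolynomial (Fin 4) K) ∈ annIdeal F := hF.2.2
  have hr : r ≤ 2 := by
    have h1 := dim_le (K := K)
    rw [← hθ.card_eq] at h1
    have h2 : ((r + 1 + 1 : ℕ) : WithBot ℕ∞) ≤ ((4 : ℕ) : WithBot ℕ∞) := by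
      push_cast
      exact h1
    have h3 : r + 1 + 1 ≤ 4 := by exact_mod_cast h2
    omega
  have h0 : ∀ j, constantCoeff (θ j) = 0 := by
    intro j
    obtain ⟨d, hd⟩ := hθ.homogeneous j
    by_cases hd0 : d = 0
    · subst hd0
      have e : θ j = C (coeff 0 (θ j)) := by
        rw [← totalDegree_eq_zero_iff_eq_C]
        by_contra hne
        have := hd.totalDegree (fun h0 => hne (by rw [h0]; simp))
        exact hne this
      have h1 : θ j ∈ exI K ⊔ Ideal.span (Set.range θ) :=
        Ideal.mem_sup_right (Ideal.subset_span ⟨j, rfl⟩)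
      have h2 := (H _).mpr h1
      rw [e, diffOp_C_apply] at h2
      rcases smul_eq_zero.mp h2 with h3 | h3
      · rw [constantCoeff_eq]; exact h3
      · exact absurd h3 hF0
    · rw [constantCoeff_eq]
      exact hd.coeff_eq_zero (by simpa using fun h => hd0 h.symm)
  -- the linear parts of `Ann F` lie in a space of dimension at most two
  set W : Submodule K (Fin 4 → K) := Submodule.span K (Set.range fun j => lin (θ j)) with hW
  have hlin : ∀ g, g ∈ annIdeal F → lin g ∈ W := by
    intro g hg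
    obtain ⟨u, hu, v, hv, rfl⟩ := Submodule.mem_sup.mp ((H g).mp hg)
    rw [lin_add, lin_exI hu, zero_add]
    exact lin_span θ h0 hv
  have hfin : Module.finrank K W ≤ 2 := by
    calc Module.finrank K W ≤ Fintype.card (Fin r) := finrank_range_le_card _
      _ = r := Fintype.card_fin r
      _ ≤ 2 := hr
  have w0 := hlin _ a0
  have w2 := hlin _ a2
  have wL := hlin _ aL
  have hind : LinearIndependent K (![⟨_, w0⟩, ⟨_, w2⟩, ⟨_, wL⟩] : Fin 3 → W) := by
    rw [Fintype.linearIndependent_iff]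
    intro g hg
    rw [Fin.sum_univ_three] at hg
    have hg' := congrArg (Subtype.val) hg
    have e0 := congrFun hg' 0
    have e1 := congrFun hg' 1
    have e2 := congrFun hg' 2
    simp [lin, Fin.sum_univ_four, pderiv_X] at e0 e1 e2
    have g2 : g 2 = 0 := e1.resolve_right (h 1)
    have g0 : g 0 = 0 := by simpa [g2] using e0
    have g1 : g 1 = 0 := by simpa [g2] using e2
    intro i
    fin_cases i
    · exact g0
    · exact g1
    · exact g2
  have := hind.fintype_card_le_finrank
  simp at this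
  omega

end Example

/-- **Disproof of Q1** (over every field `K` of characteristic zero).  Let `n = 4`,
`I = exI K = (x_0 x_1, x_2 x_3)`, `a = exA = (3, 5, 3, 5)`, `t = 4`.  Then the algebra `A = R/J`
fails the WLP in degree `t - 1 = 3`, but for a general linear form `L` no nonzero `F` in the kernel
`𝒦` satisfies `Ann_R(F) = I + (θ_1,…,θ_r)` for any system of parameters `θ_1,…,θ_r` of `I`. -/
theorem result (K : Type*) [Field K] [CharZero K] :
    IsSquarefreeMonomialCI (exI K) ∧
    (∀ (i : Fin 4) (b : ℕ), 0 < b → X i ^ b ∉ exI K) ∧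
    (∀ i : Fin 4, 2 < exA i) ∧
    FailsWLP (idealJ (exI K) exA) 4 ∧
    ForGeneralLinearForm K 4 fun L =>
      ∀ F ∈ dualKernel (idealJ (exI K) exA) L 4, F ≠ 0 →
        ∀ (r : ℕ) (θ : Fin r → MvPolynomial (Fin 4) K), IsSop (exI K) θ →
          ¬ ∀ g, diffOp g F = 0 ↔ g ∈ exI K ⊔ Ideal.span (Set.range θ) := by
  refine ⟨isCI, fun i b _ => no_pure_power i b, by decide, failsWLP, ?_⟩
  exact forGeneral_of fun c hc F hF hF0 r θ hθ => no_dual_generator c hc F hF hF0 r θ hθ

end Pool.Agent.Results.MP_2332b0_al.Disproof
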